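import Pool.Agent.Helper52.Brouwer.Kuhn

/-!
# Poincare-Miranda and Brouwer on cubes
-/

namespace Pool.Agent.Helper52.Brouwer

open Finset

/-- **Poincare-Miranda** on the unit cube, index type `Fin n`. -/
theorem poincare_miranda_fin {n : ℕ} (f : (Fin n → ℝ) → (Fin n → ℝ))
    (hf : ContinuousOn f (Set.Icc 0 1))
    (h0 : ∀ x ∈ Set.Icc (0 : Fin n → ℝ) 1, ∀ i, x i = 0 → f x i ≤ 0)
    (h1 : ∀ x ∈ Set.Icc (0 : Fin n → ℝ) 1, ∀ i, x i = 1 → 0 ≤ f x i) :
    ∃ x ∈ Set.Icc (0 : Fin n → ℝ) 1, f x = 0 := by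
  classical
  rcases n with _ | N
  · exact ⟨0, ⟨le_rfl, fun i => i.elim0⟩, Subsingleton.elim _ _⟩
  have hne : (Set.Icc (0 : Fin (N + 1) → ℝ) 1).Nonempty := ⟨0, ⟨le_rfl, zero_le_one⟩⟩
  have hcomp : IsCompact (Set.Icc (0 : Fin (N + 1) → ℝ) 1) := isCompact_Icc
  obtain ⟨z, hz, hmin⟩ := hcomp.exists_isMinOn hne hf.norm
  by_cases hz0 : f z = 0
  · exact ⟨z, hz, hz0⟩
  exfalso
  have hδ : 0 < ‖f z‖ := norm_pos_iff.mpr hz0
  have huc := hcomp.uniformContinuousOn_of_continuous hf
  rw [Metric.uniformContinuousOn_iff] at huc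
  obtain ⟨η, hη, huc⟩ := huc ‖f z‖ hδ
  obtain ⟨m, hm⟩ := exists_nat_one_div_lt hη
  set k : ℕ := m + 1 with hk
  have hkpos : 0 < k := Nat.succ_pos m
  have hkR : (0 : ℝ) < k := by exact_mod_cast hkpos
  have hm' : (1 : ℝ) / k < η := by rw [hk]; push_cast; exact hm
  let pt : (Fin (N + 1) → ℕ) → (Fin (N + 1) → ℝ) := fun x i => min ((x i : ℝ) / k) 1
  have hpt : ∀ x, pt x ∈ Set.Icc (0 : Fin (N + 1) → ℝ) 1 := by
    intro x
    refine ⟨fun i => ?_, fun i => ?_⟩
    · exact le_min (by positivity) zero_le_one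
    · exact min_le_right _ _
  let A : Fin (N + 1) → (Fin (N + 1) → ℕ) → ZMod 2 := fun i x =>
    if x i = 0 then 0 else if k ≤ x i then 1 else if 0 < f (pt x) i then 1 else 0
  have hA0 : ∀ l x, x l = 0 → A l x = 0 := fun l x hx => by simp [A, hx]
  have hA1 : ∀ l x, x l = k → A l x = 1 := fun l x hx => by simp [A, hx, hkpos.ne']
  have hneg : ∀ l x, A l x = 0 → f (pt x) l ≤ 0 := by
    intro l x hx
    by_cases ha : x l = 0
    · exact h0 _ (hpt x) l (by simp [pt, ha])
    · by_cases hb : k ≤ x l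
      · exfalso
        simp [A, ha, hb] at hx
      · by_contra hc
        simp [A, ha, hb, not_le.mp hc] at hx
  have hpos : ∀ l x, A l x = 1 → 0 ≤ f (pt x) l := by
    intro l x hx
    by_cases ha : x l = 0
    · exfalso
      simp [A, ha] at hx
    · by_cases hb : k ≤ x l
      · refine h1 _ (hpt x) l ?_
        have : (1 : ℝ) ≤ (x l : ℝ) / k := by
          rw [le_div_iff₀ hkR, one_mul]
          exact_mod_cast hb
        simp [pt, this]
      · by_contra hc
        simp [A, ha, hb, not_lt.mpr (le_of_lt (not_le.mp hc))] at hx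
  obtain ⟨x, π, hx, hch⟩ := exists_change k hkpos A hA0 hA1
  have hdist : ∀ j, dist (pt x) (pt (vx x π j)) < η := by
    intro j
    refine lt_of_le_of_lt ?_ hm'
    rw [dist_pi_le_iff (by positivity)]
    intro i
    simp only [pt, vx]
    rw [Real.dist_eq]
    refine (abs_min_sub_min_le_max _ _ _ _).trans ?_
    rw [sub_self, abs_zero]
    refine max_le ?_ (by positivity)
    push_cast
    rw [← sub_div, abs_div, abs_of_pos hkR]
    refine div_le_div_of_nonneg_right ?_ hkR.le
    split_ifs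
    · simp
    · simp
  have hsmall : ‖f (pt x)‖ < ‖f z‖ := by
    rw [pi_norm_lt_iff hδ]
    intro i
    rw [Real.norm_eq_abs]
    have key : ∀ j, |f (pt x) i - f (pt (vx x π j)) i| < ‖f z‖ := by
      intro j
      have := huc _ (hpt x) _ (hpt (vx x π j)) (hdist j)
      have h2 := (dist_le_pi_dist (f (pt x)) (f (pt (vx x π j))) i).trans_lt this
      rwa [Real.dist_eq] at h2
    have k1 := abs_lt.mp (key i)
    have k2 := abs_lt.mp (key (i + 1))
    have hz2 : ∀ a : ZMod 2, a = 0 ∨ a = 1 := by decide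
    rw [abs_lt]
    rcases hz2 (A i (vx x π i)) with e1 | e1
    · rcases hz2 (A i (vx x π (i + 1))) with e2 | e2
      · exact absurd (e2.trans e1.symm) (hch i)
      · have := hneg _ _ e1
        have := hpos _ _ e2
        constructor <;> linarith
    · rcases hz2 (A i (vx x π (i + 1))) with e2 | e2
      · have := hpos _ _ e1
        have := hneg _ _ e2
        constructor <;> linarith
      · exact absurd (e2.trans e1.symm) (hch i)
  have := hmin (hpt x)
  simp only [Set.mem_ofPred_eq] at this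
  exact absurd hsmall (not_lt.mpr this)

/-- **Poincare-Miranda** on a box, any finite index type. -/
theorem poincare_miranda {ι : Type*} [Fintype ι] (a b : ι → ℝ) (hab : a ≤ b)
    (f : (ι → ℝ) → (ι → ℝ)) (hf : ContinuousOn f (Set.Icc a b))
    (h0 : ∀ x ∈ Set.Icc a b, ∀ i, x i = a i → f x i ≤ 0)
    (h1 : ∀ x ∈ Set.Icc a b, ∀ i, x i = b i → 0 ≤ f x i) :
    ∃ x ∈ Set.Icc a b, f x = 0 := by
  classical
  let e := Fintype.equivFin ι
  let φ : (Fin (Fintype.card ι) → ℝ) → (ι → ℝ) := fun y i => a i + y (e i) * (b i - a i)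
  have hφ : Continuous φ := by fun_prop
  have hφm : ∀ y ∈ Set.Icc (0 : Fin (Fintype.card ι) → ℝ) 1, φ y ∈ Set.Icc a b := by
    intro y hy
    refine ⟨fun i => ?_, fun i => ?_⟩
    · have h2 : 0 ≤ y (e i) := hy.1 (e i)
      have h3 : 0 ≤ b i - a i := sub_nonneg.mpr (hab i)
      have := mul_nonneg h2 h3
      simp only [φ]; linarith
    · have h2 : y (e i) ≤ 1 := hy.2 (e i)
      have h3 : 0 ≤ b i - a i := sub_nonneg.mpr (hab i)
      have := mul_le_mul_of_nonneg_right h2 h3
      simp only [φ]; linarith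
  obtain ⟨y, hy, hy0⟩ := poincare_miranda_fin (fun y j => f (φ y) (e.symm j))
    (by
      have h4 : ContinuousOn (fun y => f (φ y)) (Set.Icc 0 1) :=
        hf.comp hφ.continuousOn hφm
      rw [continuousOn_pi] at h4 ⊢
      intro j
      exact h4 (e.symm j))
    (by
      intro y hy j hj
      exact h0 _ (hφm y hy) _ (by simp [φ, hj]))
    (by
      intro y hy j hj
      exact h1 _ (hφm y hy) _ (by simp [φ, hj]))
  refine ⟨φ y, hφm y hy, ?_⟩
  funext i
  have := congrFun hy0 (e i)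
  simpa using this

/-- **Brouwer** on a box. -/
theorem brouwer_box {ι : Type*} [Fintype ι] (a b : ι → ℝ) (hab : a ≤ b)
    (f : (ι → ℝ) → (ι → ℝ)) (hf : ContinuousOn f (Set.Icc a b))
    (hm : Set.MapsTo f (Set.Icc a b) (Set.Icc a b)) :
    ∃ x ∈ Set.Icc a b, f x = x := by
  obtain ⟨x, hx, h⟩ := poincare_miranda a b hab (fun x => x - f x)
    (continuousOn_id.sub hf)
    (by
      intro x hx i hi
      have := (hm hx).1 i
      simp only [Pi.sub_apply]; linarith)
    (by
      intro x hx i hi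
      have := (hm hx).2 i
      simp only [Pi.sub_apply]; linarith)
  exact ⟨x, hx, (sub_eq_zero.mp h).symm⟩

end Pool.Agent.Helper52.Brouwer
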