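import Pool.Agent.Helper52.Brouwer.Main
import Pool.Agent.Helper92.TSP.Defs

/-! Brouwer fixed point theorem for the closed unit ball, from the box version. -/

set_option autoImplicit false

namespace Pool.Agent.Helper52

open Pool.Agent.TSP92 Pool.Agent.Helper52.Brouwer

theorem brouwerBall (n : ℕ) : BrouwerBall n := by
  intro f hf hm
  classical
  -- radial retraction
  let r : EuclideanSpace ℝ (Fin n) → EuclideanSpace ℝ (Fin n) := fun x => (max 1 ‖x‖)⁻¹ • x
  have hrc : Continuous r := by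
    have h0 : Continuous (fun x : EuclideanSpace ℝ (Fin n) => (max 1 ‖x‖)⁻¹) := by
      apply Continuous.inv₀ (by fun_prop)
      intro x
      have : (1 : ℝ) ≤ max 1 ‖x‖ := le_max_left _ _
      linarith
    exact h0.smul continuous_id
  have hrm : ∀ x, r x ∈ Metric.closedBall (0 : EuclideanSpace ℝ (Fin n)) 1 := by
    intro x
    rw [mem_closedBall_zero_iff, norm_smul, norm_inv, Real.norm_eq_abs,
      abs_of_pos (lt_of_lt_of_le one_pos (le_max_left _ _))]
    have h1 : (0 : ℝ) < max 1 ‖x‖ := lt_of_lt_of_le one_pos (le_max_left _ _)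
    rw [inv_mul_le_iff₀ h1, mul_one]
    exact le_max_right _ _
  have hrid : ∀ x ∈ Metric.closedBall (0 : EuclideanSpace ℝ (Fin n)) 1, r x = x := by
    intro x hx
    rw [mem_closedBall_zero_iff] at hx
    simp only [r, max_eq_left hx, inv_one, one_smul]
  let g : (Fin n → ℝ) → (Fin n → ℝ) := fun x => WithLp.ofLp (f (r (WithLp.toLp 2 x)))
  have hg : Continuous g := by
    have h1 : Continuous (fun x : Fin n → ℝ => f (r (WithLp.toLp 2 x))) := by
      apply hf.comp_continuous (hrc.comp (PiLp.continuous_toLp 2 _))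
      intro x
      exact hrm _
    exact (PiLp.continuous_ofLp 2 _).comp h1
  have hgm : ∀ x, g x ∈ Set.Icc (-1 : Fin n → ℝ) 1 := by
    intro x
    have h1 := hm (hrm (WithLp.toLp 2 x))
    rw [mem_closedBall_zero_iff] at h1
    have h2 : ∀ i, |g x i| ≤ 1 := by
      intro i
      have h3 := PiLp.norm_apply_le (f (r (WithLp.toLp 2 x))) i
      rw [Real.norm_eq_abs] at h3
      exact h3.trans h1
    refine ⟨fun i => ?_, fun i => ?_⟩
    · exact (abs_le.1 (h2 i)).1
    · exact (abs_le.1 (h2 i)).2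
  have hab : (-1 : Fin n → ℝ) ≤ 1 := fun i => by simp
  obtain ⟨x, hx, hfx⟩ := brouwer_box (-1 : Fin n → ℝ) 1 hab g hg.continuousOn
    (fun x _ => hgm x)
  have h4 : f (r (WithLp.toLp 2 x)) = WithLp.toLp 2 x := by
    have := congrArg (WithLp.toLp 2) hfx
    simpa [g] using this
  have h5 : WithLp.toLp 2 x ∈ Metric.closedBall (0 : EuclideanSpace ℝ (Fin n)) 1 := by
    rw [← h4]; exact hm (hrm _)
  refine ⟨WithLp.toLp 2 x, h5, ?_⟩
  rw [hrid _ h5] at h4
  exact h4

theorem noRetract (n : ℕ) : NoRetract n := by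
  intro r U hU hsub hC hr1 hr2
  have hc : ContinuousOn r (Metric.closedBall 0 1) := hC.continuousOn.mono hsub
  obtain ⟨x, hx, hfx⟩ := brouwerBall n (fun x => -r x) hc.neg (by
    intro x hx
    rw [mem_closedBall_zero_iff, norm_neg, hr1 x hx])
  have h1 : ‖x‖ = 1 := by rw [← hfx, norm_neg, hr1 x hx]
  have h2 : r x = x := hr2 x h1
  rw [h2] at hfx
  have h3 : x = 0 := by
    have h4 : x + x = 0 := by nth_rewrite 1 [← hfx]; simp
    have h5 : (2 : ℝ) • x = 0 := by rw [two_smul]; exact h4
    rcases smul_eq_zero.1 h5 with h6 | h6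
    · norm_num at h6
    · exact h6
  rw [h3, norm_zero] at h1
  exact one_ne_zero h1.symm

theorem smallT (n : ℕ) : SmallT n := by
  intro r U hU hsub hC hr1 hr2
  exact (noRetract n r U hU hsub hC hr1 hr2).elim

end Pool.Agent.Helper52
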