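import Mathlib

/-!
# A parity lemma for Kuhn simplices of a grid (Poincare-Miranda, combinatorial form)
-/

namespace Pool.Agent.Helper52.Brouwer

open Finset

variable {N : ℕ}

/-- The `j`-th vertex of the Kuhn simplex with base `x` and order `π`. -/
def vx (x : Fin (N + 1) → ℕ) (π : Equiv.Perm (Fin (N + 1))) (j : ℕ) : Fin (N + 1) → ℕ :=
  fun i => x i + if ((π.symm i : Fin (N + 1)) : ℕ) < j then 1 else 0

/-- omit the `j`-th vertex -/
def om {α : Type*} (j : ℕ) (v : ℕ → α) (l : ℕ) : α := if l < j then v l else v (l + 1)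

/-- the cochain: factor `l` of the product -/
def fac (A : Fin (N + 1) → (Fin (N + 1) → ℕ) → ZMod 2) (i : Fin (N + 1))
    (y : ℕ → (Fin (N + 1) → ℕ)) (l : Fin (N + 1)) : ZMod 2 :=
  if l < i then A l (y (l + 1)) + A l (y l)
  else if l = i then A i (y i) else A l (y l) + A l (y (l - 1))

/-- the cochain -/
def E (A : Fin (N + 1) → (Fin (N + 1) → ℕ) → ZMod 2) (i : Fin (N + 1))
    (y : ℕ → (Fin (N + 1) → ℕ)) : ZMod 2 :=
  ∏ l : Fin (N + 1), fac A i y l

/-- full product -/
def G (A : Fin (N + 1) → (Fin (N + 1) → ℕ) → ZMod 2) (v : ℕ → (Fin (N + 1) → ℕ)) : ZMod 2 :=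
  ∏ l : Fin (N + 1), (A l (v (l + 1)) + A l (v l))

lemma E_congr (A : Fin (N + 1) → (Fin (N + 1) → ℕ) → ZMod 2) (i : Fin (N + 1))
    {y z : ℕ → (Fin (N + 1) → ℕ)} (h : ∀ l ≤ N, y l = z l) : E A i y = E A i z := by
  unfold E
  refine Finset.prod_congr rfl fun l _ => ?_
  unfold fac
  have hl : (l : ℕ) ≤ N := by omega
  by_cases h1 : l < i
  · have h2 : (l : ℕ) + 1 ≤ N := by
      have : (l : ℕ) < i := h1
      omega
    simp only [h1, if_true]
    rw [h _ h2, h _ hl]
  · by_cases h3 : l = i
    · subst h3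
      simp only [lt_irrefl, if_false, if_true]
      rw [h _ hl]
    · simp only [h1, h3, if_false]
      rw [h _ hl, h ((l : ℕ) - 1) (by omega)]

lemma prod_split {ι : Type*} [Fintype ι] [DecidableEq ι] {R : Type*} [CommRing R]
    (f g h : ι → R) (a : ι) (ha : f a = g a + h a) (hg : ∀ l, l ≠ a → f l = g l)
    (hh : ∀ l, l ≠ a → f l = h l) : ∏ l, f l = ∏ l, g l + ∏ l, h l := by
  classical
  rw [← Finset.mul_prod_erase univ f (mem_univ a), ← Finset.mul_prod_erase univ g (mem_univ a),
    ← Finset.mul_prod_erase univ h (mem_univ a), ha, add_mul]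
  congr 1
  · congr 1
    exact Finset.prod_congr rfl fun l hl => hg l (Finset.ne_of_mem_erase hl)
  · congr 1
    exact Finset.prod_congr rfl fun l hl => hh l (Finset.ne_of_mem_erase hl)

/-- auxiliary factors -/
def uf (A : Fin (N + 1) → (Fin (N + 1) → ℕ) → ZMod 2) (i : Fin (N + 1))
    (v : ℕ → (Fin (N + 1) → ℕ)) (j : ℕ) (l : Fin (N + 1)) : ZMod 2 :=
  if l < i then (if (l : ℕ) < j then A l (v (l + 1)) + A l (v l)
    else A l (v (l + 2)) + A l (v (l + 1)))
  else if l = i then A i (v (i + 1)) else A l (v (l + 1)) + A l (v l)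

/-- auxiliary factors -/
def wf (A : Fin (N + 1) → (Fin (N + 1) → ℕ) → ZMod 2) (i : Fin (N + 1))
    (v : ℕ → (Fin (N + 1) → ℕ)) (j : ℕ) (l : Fin (N + 1)) : ZMod 2 :=
  if l < i then A l (v (l + 1)) + A l (v l)
  else if l = i then A i (v i)
  else (if (l : ℕ) ≤ j then A l (v l) + A l (v (l - 1)) else A l (v (l + 1)) + A l (v l))

lemma z2 (a : ZMod 2) : a + a = 0 := CharTwo.add_self_eq_zero a

lemma z2' (a b : ZMod 2) : a + (a + b) = b := by rw [← add_assoc, z2, zero_add]

lemma E_om_zero (A : Fin (N + 1) → (Fin (N + 1) → ℕ) → ZMod 2) (i : Fin (N + 1))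
    (v : ℕ → (Fin (N + 1) → ℕ)) : E A i (om 0 v) = ∏ l, uf A i v 0 l := by
  unfold E
  refine Finset.prod_congr rfl fun l _ => ?_
  unfold fac uf om
  by_cases h1 : l < i
  · simp [h1]
  · by_cases h3 : l = i
    · subst h3
      simp
    · have h4 : (i : ℕ) < l := by
        have : i < l := lt_of_le_of_ne (not_lt.mp h1) (Ne.symm h3)
        exact this
      have h5 : (l : ℕ) - 1 + 1 = l := by omega
      simp [h1, h3, h5]

lemma E_om_low (A : Fin (N + 1) → (Fin (N + 1) → ℕ) → ZMod 2) (i : Fin (N + 1))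
    (v : ℕ → (Fin (N + 1) → ℕ)) (j : ℕ) (hj : j + 1 ≤ i) :
    E A i (om (j + 1) v) = ∏ l, uf A i v j l + ∏ l, uf A i v (j + 1) l := by
  unfold E
  have hjN : j < N + 1 := by omega
  refine prod_split _ _ _ ⟨j, hjN⟩ ?_ ?_ ?_
  · have h1 : (⟨j, hjN⟩ : Fin (N + 1)) < i := by
      rw [Fin.lt_def]; simp; omega
    unfold fac uf om
    simp only [h1, if_true, lt_irrefl, if_false, Nat.lt_succ_self]
    generalize A ⟨j, hjN⟩ (v (j + 1 + 1)) = a
    generalize A ⟨j, hjN⟩ (v (j + 1)) = b
    generalize A ⟨j, hjN⟩ (v j) = c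
    revert a b c
    decide
  · intro l hl
    have hl' : (l : ℕ) ≠ j := fun h => hl (Fin.ext h)
    unfold fac uf om
    by_cases h1 : l < i
    · by_cases h2 : (l : ℕ) < j
      · simp [h1, h2, show (l : ℕ) < j + 1 by omega, show (l : ℕ) + 1 < j + 1 by omega]
      · simp [h1, h2, show ¬ (l : ℕ) < j + 1 by omega, show ¬ (l : ℕ) + 1 < j + 1 by omega]
    · have h4 : (i : ℕ) ≤ l := not_lt.mp h1
      by_cases h3 : l = i
      · subst h3
        simp [show ¬ (l : ℕ) < j + 1 by omega]
      · have h6 : (i : ℕ) ≠ l := fun h => h3 (Fin.ext h.symm)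
        have h5 : (l : ℕ) - 1 + 1 = l := by omega
        simp [h1, h3, h5, show ¬ (l : ℕ) < j + 1 by omega, show ¬ (l : ℕ) - 1 < j + 1 by omega]
  · intro l hl
    have hl' : (l : ℕ) ≠ j := fun h => hl (Fin.ext h)
    unfold fac uf om
    by_cases h1 : l < i
    · by_cases h2 : (l : ℕ) < j
      · simp [h1, show (l : ℕ) < j + 1 by omega, show (l : ℕ) + 1 < j + 1 by omega]
      · simp [h1, show ¬ (l : ℕ) < j + 1 by omega, show ¬ (l : ℕ) + 1 < j + 1 by omega]
    · have h4 : (i : ℕ) ≤ l := not_lt.mp h1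
      by_cases h3 : l = i
      · subst h3
        simp [show ¬ (l : ℕ) < j + 1 by omega]
      · have h6 : (i : ℕ) ≠ l := fun h => h3 (Fin.ext h.symm)
        have h5 : (l : ℕ) - 1 + 1 = l := by omega
        simp [h1, h3, h5, show ¬ (l : ℕ) < j + 1 by omega, show ¬ (l : ℕ) - 1 < j + 1 by omega]

lemma E_om_high (A : Fin (N + 1) → (Fin (N + 1) → ℕ) → ZMod 2) (i : Fin (N + 1))
    (v : ℕ → (Fin (N + 1) → ℕ)) (j : ℕ) (hj : (i : ℕ) ≤ j) (hN : j + 1 ≤ N) :
    E A i (om (j + 1) v) = ∏ l, wf A i v j l + ∏ l, wf A i v (j + 1) l := by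
  unfold E
  have hjN : j + 1 < N + 1 := by omega
  refine prod_split _ _ _ ⟨j + 1, hjN⟩ ?_ ?_ ?_
  · have h1 : ¬ (⟨j + 1, hjN⟩ : Fin (N + 1)) < i := by
      rw [Fin.lt_def]; simp; omega
    have h2 : ¬ (⟨j + 1, hjN⟩ : Fin (N + 1)) = i := by
      intro h
      have := congrArg Fin.val h
      simp at this; omega
    unfold fac wf om
    simp only [h1, h2, lt_irrefl, if_false, le_refl, if_true, Nat.add_sub_cancel,
      Nat.lt_succ_self, show ¬ j + 1 ≤ j by omega]
    generalize A ⟨j + 1, hjN⟩ (v (j + 1 + 1)) = a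
    generalize A ⟨j + 1, hjN⟩ (v (j + 1)) = b
    generalize A ⟨j + 1, hjN⟩ (v j) = c
    revert a b c
    decide
  · intro l hl
    have hl' : (l : ℕ) ≠ j + 1 := fun h => hl (Fin.ext h)
    unfold fac wf om
    by_cases h1 : l < i
    · have h4 : (l : ℕ) < i := h1
      simp [h1, show (l : ℕ) < j + 1 by omega, show (l : ℕ) + 1 < j + 1 by omega]
    · have h4 : (i : ℕ) ≤ l := not_lt.mp h1
      by_cases h3 : l = i
      · subst h3
        simp [show (l : ℕ) < j + 1 by omega]
      · have h6 : (i : ℕ) ≠ l := fun h => h3 (Fin.ext h.symm)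
        by_cases h2 : (l : ℕ) ≤ j
        · simp [h1, h3, h2, show (l : ℕ) < j + 1 by omega, show (l : ℕ) - 1 < j + 1 by omega]
        · have h5 : (l : ℕ) - 1 + 1 = l := by omega
          simp [h1, h3, h2, h5, show ¬ (l : ℕ) < j + 1 by omega,
            show ¬ (l : ℕ) - 1 < j + 1 by omega]
  · intro l hl
    have hl' : (l : ℕ) ≠ j + 1 := fun h => hl (Fin.ext h)
    unfold fac wf om
    by_cases h1 : l < i
    · have h4 : (l : ℕ) < i := h1
      simp [h1, show (l : ℕ) < j + 1 by omega, show (l : ℕ) + 1 < j + 1 by omega]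
    · have h4 : (i : ℕ) ≤ l := not_lt.mp h1
      by_cases h3 : l = i
      · subst h3
        simp [show (l : ℕ) < j + 1 by omega]
      · have h6 : (i : ℕ) ≠ l := fun h => h3 (Fin.ext h.symm)
        by_cases h2 : (l : ℕ) ≤ j
        · simp [h1, h3, show (l : ℕ) ≤ j + 1 by omega, show (l : ℕ) < j + 1 by omega,
            show (l : ℕ) - 1 < j + 1 by omega]
        · have h5 : (l : ℕ) - 1 + 1 = l := by omega
          simp [h1, h3, h5, show ¬ (l : ℕ) ≤ j + 1 by omega, show ¬ (l : ℕ) < j + 1 by omega,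
            show ¬ (l : ℕ) - 1 < j + 1 by omega]

lemma E_om_last (A : Fin (N + 1) → (Fin (N + 1) → ℕ) → ZMod 2) (i : Fin (N + 1))
    (v : ℕ → (Fin (N + 1) → ℕ)) : E A i (om (N + 1) v) = ∏ l, wf A i v N l := by
  unfold E
  refine Finset.prod_congr rfl fun l _ => ?_
  have hl : (l : ℕ) ≤ N := by omega
  unfold fac wf om
  by_cases h1 : l < i
  · have h4 : (l : ℕ) < i := h1
    simp [h1, show (l : ℕ) < N + 1 by omega, show (l : ℕ) + 1 < N + 1 by omega]
  · by_cases h3 : l = i
    · subst h3
      simp [show (l : ℕ) < N + 1 by omega]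
    · simp [h1, h3, hl, show (l : ℕ) < N + 1 by omega, show (l : ℕ) - 1 < N + 1 by omega]

lemma G_split (A : Fin (N + 1) → (Fin (N + 1) → ℕ) → ZMod 2) (i : Fin (N + 1))
    (v : ℕ → (Fin (N + 1) → ℕ)) :
    G A v = ∏ l, uf A i v i l + ∏ l, wf A i v i l := by
  unfold G
  refine prod_split _ _ _ i ?_ ?_ ?_
  · simp [uf, wf]
  · intro l hl
    unfold uf
    by_cases h1 : l < i
    · have h4 : (l : ℕ) < i := h1
      simp [h1]
    · simp [h1, hl]
  · intro l hl
    unfold wf
    by_cases h1 : l < i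
    · simp [h1]
    · have h4 : (i : ℕ) ≤ l := not_lt.mp h1
      have h6 : (i : ℕ) ≠ l := fun h => hl (Fin.ext h.symm)
      simp [h1, hl, show ¬ (l : ℕ) ≤ i by omega]

/-- The coboundary identity. -/
lemma sum_E_om (A : Fin (N + 1) → (Fin (N + 1) → ℕ) → ZMod 2) (i : Fin (N + 1))
    (v : ℕ → (Fin (N + 1) → ℕ)) : ∑ j ∈ range (N + 2), E A i (om j v) = G A v := by
  have hlow : ∀ j, j ≤ (i : ℕ) → ∑ t ∈ range (j + 1), E A i (om t v) = ∏ l, uf A i v j l := by
    intro j
    induction j with
    | zero => intro _; simp [E_om_zero]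
    | succ j ih =>
      intro hj
      rw [Finset.sum_range_succ, ih (by omega), E_om_low A i v j hj, z2']
  have hhigh : ∀ j, (i : ℕ) + j ≤ N → ∑ t ∈ range (i + j + 1), E A i (om t v)
      = G A v + ∏ l, wf A i v (i + j) l := by
    intro j
    induction j with
    | zero =>
      intro _
      simp only [Nat.add_zero]
      rw [hlow i le_rfl, G_split A i v, add_assoc, z2, add_zero]
    | succ j ih =>
      intro hj
      rw [← Nat.add_assoc, Finset.sum_range_succ, ih (by omega),
        E_om_high A i v (i + j) (by omega) (by omega), add_assoc, z2']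
  have h1 := hhigh (N - i) (by omega)
  have h2 : (i : ℕ) + (N - i) = N := by omega
  rw [h2] at h1
  rw [Finset.sum_range_succ, h1, E_om_last, add_assoc, z2, add_zero]

/-! ### pairing of facets -/

/-- the base points -/
def box (N k : ℕ) : Finset (Fin (N + 1) → ℕ) := Fintype.piFinset fun _ => range k

lemma mem_box {k : ℕ} {x : Fin (N + 1) → ℕ} : x ∈ box N k ↔ ∀ i, x i < k := by
  simp [box]

lemma sum_inner (A : Fin (N + 1) → (Fin (N + 1) → ℕ) → ZMod 2) (i : Fin (N + 1))
    (x : Fin (N + 1) → ℕ) (j : ℕ) (hj : j + 1 ≤ N) :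
    ∑ π : Equiv.Perm (Fin (N + 1)), E A i (om (j + 1) (vx x π)) = 0 := by
  classical
  set a : Fin (N + 1) := ⟨j, by omega⟩ with ha
  set b : Fin (N + 1) := ⟨j + 1, by omega⟩ with hb
  have hab : a ≠ b := by
    intro h
    have := congrArg Fin.val h
    simp [ha, hb] at this
  refine Finset.sum_involution (fun π _ => π * Equiv.swap a b) ?_ ?_ ?_ ?_
  · intro π _
    have hv : E A i (om (j + 1) (vx x (π * Equiv.swap a b))) = E A i (om (j + 1) (vx x π)) := by
      have hkey : ∀ l, l ≠ j + 1 → vx x (π * Equiv.swap a b) l = vx x π l := by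
        intro l hl
        funext t
        unfold vx
        have h1 : (π * Equiv.swap a b).symm t = Equiv.swap a b (π.symm t) := by
          rw [Equiv.symm_apply_eq]
          simp [Equiv.Perm.mul_apply]
        rw [h1]
        congr 1
        have h2 : ((Equiv.swap a b (π.symm t) : Fin (N + 1)) : ℕ) < l ↔
            ((π.symm t : Fin (N + 1)) : ℕ) < l := by
          by_cases h3 : π.symm t = a
          · rw [h3, Equiv.swap_apply_left]
            simp [ha, hb]; omega
          · by_cases h4 : π.symm t = b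
            · rw [h4, Equiv.swap_apply_right]
              simp [ha, hb]; omega
            · rw [Equiv.swap_apply_of_ne_of_ne h3 h4]
        simp only [h2]
      refine E_congr A i fun l _ => ?_
      unfold om
      by_cases h : l < j + 1
      · simp only [h, if_true]; exact hkey l (by omega)
      · simp only [h, if_false]; exact hkey (l + 1) (by omega)
    rw [hv, z2]
  · intro π _ _ h
    have : Equiv.swap a b = 1 := mul_eq_left.mp h
    rw [Equiv.swap_eq_one_iff] at this
    exact hab this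
  · intro π _; exact mem_univ _
  · intro π _
    rw [mul_assoc, Equiv.swap_mul_self, mul_one]

/-- shifting the base point in direction `d` -/
lemma sum_shift (k : ℕ) (d : Fin (N + 1)) (g : (Fin (N + 1) → ℕ) → ZMod 2)
    (h0 : ∀ x ∈ box N k, x d = 0 → g x = 0)
    (hk : ∀ x ∈ box N k, x d + 1 = k → g (fun t => x t + if t = d then 1 else 0) = 0) :
    ∑ x ∈ box N k, g (fun t => x t + if t = d then 1 else 0) = ∑ x ∈ box N k, g x := by
  classical
  have e1 : ∑ x ∈ box N k, g (fun t => x t + if t = d then 1 else 0)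
      = ∑ x ∈ (box N k).filter (fun x => x d + 1 < k), g (fun t => x t + if t = d then 1 else 0) := by
    symm
    refine Finset.sum_subset (Finset.filter_subset _ _) ?_
    intro x hx hx'
    refine hk x hx ?_
    have h1 := mem_box.mp hx d
    have h2 : ¬ (x d + 1 < k) := fun h => hx' (Finset.mem_filter.mpr ⟨hx, h⟩)
    omega
  have e2 : ∑ x ∈ box N k, g x = ∑ x ∈ (box N k).filter (fun x => 0 < x d), g x := by
    symm
    refine Finset.sum_subset (Finset.filter_subset _ _) ?_
    intro x hx hx'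
    refine h0 x hx ?_
    by_contra h
    exact hx' (Finset.mem_filter.mpr ⟨hx, Nat.pos_of_ne_zero h⟩)
  rw [e1, e2]
  refine Finset.sum_nbij' (fun x => fun t => x t + if t = d then 1 else 0)
    (fun x => fun t => x t - if t = d then 1 else 0) ?_ ?_ ?_ ?_ ?_
  · intro x hx
    rw [Finset.mem_filter] at hx ⊢
    refine ⟨mem_box.mpr fun t => ?_, by simp⟩
    have h1 := mem_box.mp hx.1 t
    by_cases ht : t = d
    · subst ht; simp; omega
    · simp [ht, h1]
  · intro x hx
    rw [Finset.mem_filter] at hx ⊢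
    refine ⟨mem_box.mpr fun t => ?_, ?_⟩
    · have h1 := mem_box.mp hx.1 t
      omega
    · have h1 := mem_box.mp hx.1 d
      have h2 := hx.2
      simp only [if_true]
      omega
  · intro x _
    funext t
    dsimp only
    omega
  · intro x hx
    rw [Finset.mem_filter] at hx
    funext t
    dsimp only
    by_cases ht : t = d
    · subst ht
      have := hx.2
      simp only [if_true]
      omega
    · simp [ht]
  · intro x _
    rfl

/-- omitting the first vertex = rotated simplex -/
lemma vx_rot (x : Fin (N + 1) → ℕ) (π : Equiv.Perm (Fin (N + 1))) (l : ℕ) (hl : l ≤ N) :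
    vx x π (l + 1) = vx (fun t => x t + if t = π 0 then 1 else 0) (π * finRotate (N + 1)) l := by
  funext t
  unfold vx
  have h1 : (π * finRotate (N + 1)).symm t = (finRotate (N + 1)).symm (π.symm t) := by
    rw [Equiv.symm_apply_eq]
    simp [Equiv.Perm.mul_apply]
  rw [h1]
  by_cases h0 : t = π 0
  · subst h0
    have h2 : (finRotate (N + 1)).symm (π.symm (π 0)) = Fin.last N := by
      rw [Equiv.symm_apply_eq, finRotate_last, Equiv.symm_apply_apply]
    rw [h2]
    simp [show ¬ N < l by omega]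
  · have h3 : π.symm t ≠ 0 := by
      intro h
      apply h0
      rw [← h, Equiv.apply_symm_apply]
    obtain ⟨p, hp⟩ := Fin.exists_succ_eq.mpr h3
    have h4 : (finRotate (N + 1)).symm (π.symm t) = p.castSucc := by
      rw [Equiv.symm_apply_eq, ← hp]
      rw [finRotate_of_lt (by simp : ((p.castSucc : Fin (N+1)) : ℕ) < N)]
      ext; simp
    rw [h4, ← hp]
    simp [h0]

lemma E_bdry (k : ℕ) (A : Fin (N + 1) → (Fin (N + 1) → ℕ) → ZMod 2) (i : Fin (N + 1))
    (hA0 : ∀ l x, x l = 0 → A l x = 0) (hA1 : ∀ l, l ≠ i → ∀ x, x l = k → A l x = 1)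
    (hAi : ∀ x, x i = k → A i x = 0) (ρ : Equiv.Perm (Fin (N + 1))) (x : Fin (N + 1) → ℕ)
    (hx : x (ρ (Fin.last N)) = 0 ∨ x (ρ (Fin.last N)) = k) : E A i (vx x ρ) = 0 := by
  set d := ρ (Fin.last N) with hd
  have hpos : ρ.symm d = Fin.last N := by rw [hd, Equiv.symm_apply_apply]
  have hv : ∀ l, l ≤ N → vx x ρ l d = x d := by
    intro l hl
    unfold vx
    rw [hpos]
    simp [show ¬ N < l by omega]
  unfold E
  refine Finset.prod_eq_zero (mem_univ d) ?_
  unfold fac
  have hdN : (d : ℕ) ≤ N := by omega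
  by_cases h1 : d < i
  · have h2 : (d : ℕ) < i := h1
    have hdi : d ≠ i := ne_of_lt h1
    simp only [h1, if_true]
    rcases hx with h | h
    · rw [hA0 d _ ((hv _ (by omega)).trans h), hA0 d _ ((hv _ (by omega)).trans h), add_zero]
    · rw [hA1 d hdi _ ((hv _ (by omega)).trans h), hA1 d hdi _ ((hv _ (by omega)).trans h), z2]
  · by_cases h3 : d = i
    · simp only [h3, if_true]
      have hv' := hv i (by omega)
      rw [h3] at hv' hx
      simp only [lt_irrefl, if_false]
      rcases hx with h | h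
      · exact hA0 i _ (hv'.trans h)
      · exact hAi _ (hv'.trans h)
    · simp only [h1, h3, if_false]
      rcases hx with h | h
      · rw [hA0 d _ ((hv _ (by omega)).trans h), hA0 d _ ((hv _ (by omega)).trans h), add_zero]
      · rw [hA1 d h3 _ ((hv _ (by omega)).trans h), hA1 d h3 _ ((hv _ (by omega)).trans h), z2]

/-- the total sum -/
def S (k : ℕ) (A : Fin (N + 1) → (Fin (N + 1) → ℕ) → ZMod 2) : ZMod 2 :=
  ∑ x ∈ box N k, ∑ π : Equiv.Perm (Fin (N + 1)), G A (vx x π)

lemma S_zero (k : ℕ) (A : Fin (N + 1) → (Fin (N + 1) → ℕ) → ZMod 2) (i : Fin (N + 1))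
    (hA0 : ∀ l x, x l = 0 → A l x = 0) (hA1 : ∀ l, l ≠ i → ∀ x, x l = k → A l x = 1)
    (hAi : ∀ x, x i = k → A i x = 0) : S k A = 0 := by
  classical
  unfold S
  have h1 : ∀ x ∈ box N k, ∑ π : Equiv.Perm (Fin (N + 1)), G A (vx x π)
      = ∑ π : Equiv.Perm (Fin (N + 1)), E A i (om 0 (vx x π))
        + ∑ π : Equiv.Perm (Fin (N + 1)), E A i (om (N + 1) (vx x π)) := by
    intro x _
    have h2 : ∀ π : Equiv.Perm (Fin (N + 1)), G A (vx x π)
        = ∑ j ∈ range (N + 2), E A i (om j (vx x π)) := fun π => (sum_E_om A i _).symm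
    rw [Finset.sum_congr rfl fun π _ => h2 π, Finset.sum_comm, Finset.sum_range_succ,
      Finset.sum_range_succ']
    have h3 : ∑ j ∈ range N, ∑ π : Equiv.Perm (Fin (N + 1)), E A i (om (j + 1) (vx x π)) = 0 :=
      Finset.sum_eq_zero fun j hj => sum_inner A i x j (by
        have := Finset.mem_range.mp hj; omega)
    rw [h3, zero_add]
  rw [Finset.sum_congr rfl h1, Finset.sum_add_distrib]
  have h4 : ∑ x ∈ box N k, ∑ π : Equiv.Perm (Fin (N + 1)), E A i (om 0 (vx x π))
      = ∑ x ∈ box N k, ∑ π : Equiv.Perm (Fin (N + 1)), E A i (vx x π) := by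
    rw [Finset.sum_comm, Finset.sum_comm (s := box N k)]
    have h5 : ∀ π : Equiv.Perm (Fin (N + 1)), ∑ x ∈ box N k, E A i (om 0 (vx x π))
        = ∑ x ∈ box N k, E A i (vx x (π * finRotate (N + 1))) := by
      intro π
      have hlast : (π * finRotate (N + 1)) (Fin.last N) = π 0 := by
        rw [Equiv.Perm.mul_apply, finRotate_last]
      rw [← sum_shift k (π 0) (fun x => E A i (vx x (π * finRotate (N + 1))))]
      · refine Finset.sum_congr rfl fun x _ => ?_
        refine E_congr A i fun l hl => ?_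
        rw [← vx_rot x π l hl]
        unfold om
        simp
      · intro x _ hx
        exact E_bdry k A i hA0 hA1 hAi _ _ (Or.inl (by rw [hlast]; exact hx))
      · intro x _ hx
        refine E_bdry k A i hA0 hA1 hAi _ _ (Or.inr ?_)
        rw [hlast]
        simpa using hx
    rw [Finset.sum_congr rfl fun π _ => h5 π]
    exact Equiv.sum_comp (Equiv.mulRight (finRotate (N + 1)))
      (fun ρ => ∑ x ∈ box N k, E A i (vx x ρ))
  have h6 : ∑ x ∈ box N k, ∑ π : Equiv.Perm (Fin (N + 1)), E A i (om (N + 1) (vx x π))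
      = ∑ x ∈ box N k, ∑ π : Equiv.Perm (Fin (N + 1)), E A i (vx x π) := by
    refine Finset.sum_congr rfl fun x _ => Finset.sum_congr rfl fun π _ => ?_
    refine E_congr A i fun l hl => ?_
    unfold om
    simp [show l < N + 1 by omega]
  rw [h4, h6, z2]

/-- the model functions -/
def bf (l : Fin (N + 1)) (x : Fin (N + 1) → ℕ) : ZMod 2 := if x l = 0 then 0 else 1

lemma S_bf (k : ℕ) (hk : 0 < k) : S k (bf : Fin (N + 1) → (Fin (N + 1) → ℕ) → ZMod 2) = 1 := by
  classical
  have key : ∀ (x : Fin (N + 1) → ℕ) (π : Equiv.Perm (Fin (N + 1))),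
      G bf (vx x π) ≠ 0 → x = 0 ∧ π = 1 := by
    intro x π h
    have h1 : ∀ l : Fin (N + 1), bf l (vx x π (l + 1)) + bf l (vx x π l) ≠ 0 := by
      intro l hl
      exact h (Finset.prod_eq_zero (mem_univ l) hl)
    have h2 : ∀ l : Fin (N + 1), x l = 0 ∧ ((π.symm l : Fin (N + 1)) : ℕ) = l := by
      intro l
      have h3 := h1 l
      unfold bf vx at h3
      by_cases ha : ((π.symm l : Fin (N + 1)) : ℕ) < l
      · exfalso
        apply h3
        simp [ha, show ((π.symm l : Fin (N + 1)) : ℕ) < l + 1 by omega, z2]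
      · by_cases hb : ((π.symm l : Fin (N + 1)) : ℕ) < l + 1
        · by_cases hc : x l = 0
          · exact ⟨hc, by omega⟩
          · exfalso
            apply h3
            simp [ha, hb, hc, z2]
        · exfalso
          apply h3
          simp [ha, hb, z2]
    refine ⟨funext fun l => (h2 l).1, ?_⟩
    have h4 : π.symm = 1 := by
      ext l
      rw [(h2 l).2]
      rfl
    have h5 : π = (π.symm).symm := by simp
    rw [h5, h4]
    rfl
  have hG : G (bf : Fin (N + 1) → (Fin (N + 1) → ℕ) → ZMod 2) (vx 0 1) = 1 := by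
    unfold G
    refine Finset.prod_eq_one fun l _ => ?_
    have h8 : (Equiv.symm (1 : Equiv.Perm (Fin (N + 1)))) l = l := rfl
    unfold bf vx
    simp [h8]
  unfold S
  rw [Finset.sum_eq_single (0 : Fin (N + 1) → ℕ), Finset.sum_eq_single (1 : Equiv.Perm (Fin (N + 1))), hG]
  · intro π _ hπ
    by_contra h
    exact hπ (key _ _ h).2
  · intro h; exact absurd (mem_univ _) h
  · intro x _ hx
    refine Finset.sum_eq_zero fun π _ => ?_
    by_contra h
    exact hx (key _ _ h).1
  · intro h
    exact absurd (mem_box.mpr fun _ => hk) h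

/-- **Parity lemma**: the total sum is one. -/
theorem S_eq_one (k : ℕ) (hk : 0 < k) (A : Fin (N + 1) → (Fin (N + 1) → ℕ) → ZMod 2)
    (hA0 : ∀ l x, x l = 0 → A l x = 0) (hA1 : ∀ l x, x l = k → A l x = 1) : S k A = 1 := by
  classical
  let B : ℕ → Fin (N + 1) → (Fin (N + 1) → ℕ) → ZMod 2 :=
    fun t l => if (l : ℕ) < t then bf l else A l
  have hstep : ∀ t, t ≤ N + 1 → S k (B t) = S k A := by
    intro t
    induction t with
    | zero => intro _; congr 1
    | succ t ih =>
      intro ht
      rw [← ih (by omega)]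
      have htN : t < N + 1 := by omega
      set i : Fin (N + 1) := ⟨t, htN⟩ with hi
      let C : Fin (N + 1) → (Fin (N + 1) → ℕ) → ZMod 2 :=
        fun l x => if l = i then A l x + bf l x else B t l x
      have hadd : S k C = S k (B t) + S k (B (t + 1)) := by
        unfold S
        rw [← Finset.sum_add_distrib]
        refine Finset.sum_congr rfl fun x _ => ?_
        rw [← Finset.sum_add_distrib]
        refine Finset.sum_congr rfl fun π _ => ?_
        unfold G
        refine prod_split _ _ _ i ?_ ?_ ?_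
        · simp only [C, B, if_true, hi, lt_irrefl, if_false, Nat.lt_succ_self]
          ring
        · intro l hl
          simp only [C, hl, if_false]
        · intro l hl
          have hl' : (l : ℕ) ≠ t := fun h => hl (Fin.ext h)
          simp only [C, B, hl, if_false]
          by_cases h : (l : ℕ) < t
          · simp [h, show (l : ℕ) < t + 1 by omega]
          · simp [h, show ¬ (l : ℕ) < t + 1 by omega]
      have hzero : S k C = 0 := by
        refine S_zero k C i ?_ ?_ ?_
        · intro l x hx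
          simp only [C, B]
          by_cases h : l = i
          · simp only [h, if_true, bf]
            rw [h] at hx
            simp [hx, hA0 i x hx]
          · simp only [h, if_false]
            by_cases h' : (l : ℕ) < t
            · simp [h', bf, hx]
            · simp [h', hA0 l x hx]
        · intro l hl x hx
          simp only [C, B, hl, if_false]
          by_cases h' : (l : ℕ) < t
          · simp [h', bf, hx, hk.ne']
          · simp [h', hA1 l x hx]
        · intro x hx
          simp only [C, if_true]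
          rw [hA1 i x hx]
          simp [bf, hx, hk.ne', z2]
      rw [hzero] at hadd
      have h7 : S k (B t) = S k (B (t + 1)) := by
        generalize S k (B t) = a at hadd
        generalize S k (B (t + 1)) = b at hadd
        revert a b
        decide
      exact h7.symm
  rw [← hstep (N + 1) le_rfl]
  have hB : B (N + 1) = bf := by
    funext l
    simp only [B, show (l : ℕ) < N + 1 from l.isLt, if_true]
  rw [hB]
  exact S_bf k hk

/-- **Combinatorial Poincare-Miranda**: there is a Kuhn simplex along which every `A i` changes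
at step `i`. -/
theorem exists_change (k : ℕ) (hk : 0 < k) (A : Fin (N + 1) → (Fin (N + 1) → ℕ) → ZMod 2)
    (hA0 : ∀ l x, x l = 0 → A l x = 0) (hA1 : ∀ l x, x l = k → A l x = 1) :
    ∃ (x : Fin (N + 1) → ℕ) (π : Equiv.Perm (Fin (N + 1))), (∀ i, x i < k) ∧
      ∀ i : Fin (N + 1), A i (vx x π (i + 1)) ≠ A i (vx x π i) := by
  by_contra hcon
  push Not at hcon
  have h1 := S_eq_one k hk A hA0 hA1
  have h2 : S k A = 0 := by
    unfold S
    refine Finset.sum_eq_zero fun x hx => Finset.sum_eq_zero fun π _ => ?_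
    obtain ⟨i, hi⟩ := hcon x π (mem_box.mp hx)
    unfold G
    refine Finset.prod_eq_zero (mem_univ i) ?_
    rw [hi, z2]
  rw [h2] at h1
  exact absurd h1 (by decide)

end Pool.Agent.Helper52.Brouwer
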